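import Pool.Agent.H74.BTL.Targets

/-!
# Row GAP of the board btl_modules: a family with spectral gap (MP_60ff71_an)
-/

set_option autoImplicit false

open scoped ENNReal RealInnerProductSpace
open Filter Topology

universe u

namespace Pool.Agent.H13.BTL

open Pool.Agent.H74.BTL

theorem inner_rt_eq {G : Type u} [Group G] (g k : G) (f : L2 G) :
    ⟪rt g f, rt k f⟫ = ‖f‖ ^ 2 - ‖rt g f - rt k f‖ ^ 2 / 2 := by
  have h := norm_sub_sq_real (rt g f) (rt k f)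
  rw [norm_rt, norm_rt] at h
  linarith

theorem norm_sum_rt_le {G : Type u} [Group G] (S : Finset G) {κ : ℝ}
    (hκ : ∀ f : L2 G, κ * ‖f‖ ^ 2 ≤ ∑ s ∈ S, ‖rt s f - f‖ ^ 2) (t : Fin (S.card + 1) → G)
    (ht0 : t 0 = 1) (ht : ∀ j : Fin S.card, t j.succ = (S.equivFin.symm j : G)) (f : L2 G) :
    ‖∑ j, rt (t j) f‖ ^ 2 ≤ (((S.card + 1 : ℕ) : ℝ) ^ 2 - κ) * ‖f‖ ^ 2 := by
  set d : Fin (S.card + 1) → Fin (S.card + 1) → ℝ := fun j k =>
    ‖rt (t j) f - rt (t k) f‖ ^ 2 with hd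
  have hd0 : ∀ j k, 0 ≤ d j k := fun j k => sq_nonneg _
  have h1 : ‖∑ j, rt (t j) f‖ ^ 2 =
      ((S.card + 1 : ℕ) : ℝ) ^ 2 * ‖f‖ ^ 2 - (∑ j, ∑ k, d j k) / 2 := by
    rw [← real_inner_self_eq_norm_sq, sum_inner]
    have h2 : ∀ j, ⟪rt (t j) f, ∑ k, rt (t k) f⟫ =
        ((S.card + 1 : ℕ) : ℝ) * ‖f‖ ^ 2 - (∑ k, d j k) / 2 := by
      intro j
      rw [inner_sum]
      have h3 : ∀ k, ⟪rt (t j) f, rt (t k) f⟫ = ‖f‖ ^ 2 - d j k / 2 := fun k =>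
        inner_rt_eq (t j) (t k) f
      rw [Finset.sum_congr rfl (fun k _ => h3 k), Finset.sum_sub_distrib, Finset.sum_const,
        Finset.card_univ, Fintype.card_fin, nsmul_eq_mul, Finset.sum_div]
    rw [Finset.sum_congr rfl (fun j _ => h2 j), Finset.sum_sub_distrib, Finset.sum_const,
      Finset.card_univ, Fintype.card_fin, nsmul_eq_mul, Finset.sum_div]
    ring
  have hsum : ∀ φ : G → ℝ, ∑ j : Fin S.card, φ (S.equivFin.symm j : G) = ∑ s ∈ S, φ s := by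
    intro φ
    rw [← Finset.sum_coe_sort S φ]
    exact Equiv.sum_comp S.equivFin.symm fun x : S => φ x
  have h4 : 2 * ∑ s ∈ S, ‖rt s f - f‖ ^ 2 ≤ ∑ j, ∑ k, d j k := by
    rw [Fin.sum_univ_succ]
    have h5 : ∑ s ∈ S, ‖rt s f - f‖ ^ 2 ≤ ∑ k, d 0 k := by
      rw [Fin.sum_univ_succ, ← hsum fun s => ‖rt s f - f‖ ^ 2]
      have h6 : ∀ k : Fin S.card, d 0 k.succ = ‖rt (S.equivFin.symm k : G) f - f‖ ^ 2 := by
        intro k
        show ‖rt (t 0) f - rt (t k.succ) f‖ ^ 2 = _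
        rw [ht0, ht k, rt_one, norm_sub_rev]
      rw [Finset.sum_congr rfl (fun k _ => h6 k)]
      have := hd0 0 0
      linarith
    have h7 : ∑ s ∈ S, ‖rt s f - f‖ ^ 2 ≤ ∑ j : Fin S.card, ∑ k, d j.succ k := by
      rw [← hsum fun s => ‖rt s f - f‖ ^ 2]
      refine Finset.sum_le_sum fun j _ => ?_
      have h8 : d j.succ 0 ≤ ∑ k, d j.succ k :=
        Finset.single_le_sum (fun k _ => hd0 j.succ k) (Finset.mem_univ 0)
      refine le_trans (le_of_eq ?_) h8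
      show _ = ‖rt (t j.succ) f - rt (t 0) f‖ ^ 2
      rw [ht0, ht j, rt_one]
    linarith
  have h9 := hκ f
  rw [h1]
  linarith

theorem pf_GAP : T_GAP.{u} := by
  intro G _ U hU
  obtain ⟨S, hSU, κ, hκ0, hκ⟩ := hU
  let t : Fin (S.card + 1) → G := Fin.cons 1 fun j => (S.equivFin.symm j : G)
  have hN : (0 : ℝ) < ((S.card + 1 : ℕ) : ℝ) := by positivity
  refine ⟨S.card + 1, t, Real.sqrt (max 0 (1 - κ / ((S.card + 1 : ℕ) : ℝ) ^ 2)), Nat.succ_pos _,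
    fun j => ?_, Real.sqrt_nonneg _, ?_, fun f => ?_⟩
  · refine Fin.cases ?_ (fun j => ?_) j
    · exact U.one_mem
    · exact hSU _ (S.equivFin.symm j).2
  · rw [Real.sqrt_lt' one_pos, one_pow, max_lt_iff]
    refine ⟨one_pos, ?_⟩
    have : 0 < κ / ((S.card + 1 : ℕ) : ℝ) ^ 2 := by positivity
    linarith
  · have h1 := norm_sum_rt_le S hκ t rfl (fun j => rfl) f
    refine le_of_sq_le_sq ?_ (by positivity)
    rw [Fintype.card_fin, mul_pow, mul_pow, Real.sq_sqrt (le_max_left _ _)]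
    refine h1.trans (mul_le_mul_of_nonneg_right ?_ (sq_nonneg _))
    have h2 : 1 - κ / ((S.card + 1 : ℕ) : ℝ) ^ 2 ≤ max 0 (1 - κ / ((S.card + 1 : ℕ) : ℝ) ^ 2) :=
      le_max_right _ _
    calc ((S.card + 1 : ℕ) : ℝ) ^ 2 - κ
        = (1 - κ / ((S.card + 1 : ℕ) : ℝ) ^ 2) * ((S.card + 1 : ℕ) : ℝ) ^ 2 := by
          field_simp
      _ ≤ _ := mul_le_mul_of_nonneg_right h2 (sq_nonneg _)

end Pool.Agent.H13.BTL
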