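import Pool.Agent.H74.BTL.Targets

/-!
# Row LWA of the board btl_modules: flows on the new edges (MP_60ff71_an)
-/

set_option autoImplicit false
set_option linter.unusedSectionVars false

open scoped ENNReal RealInnerProductSpace Pointwise
open Filter Topology

universe u

namespace Pool.Agent.H13.BTL

open Pool.Agent.H74.BTL

section

variable {G : Type u} [Group G] {I A : Type}

/-- the embedding of the new edges -/
def emb : (G × A) ↪ (G × (I ⊕ A)) :=
  ⟨fun p => (p.1, Sum.inr p.2), fun p q h => by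
    rw [Prod.mk.injEq, Sum.inr.injEq] at h
    exact Prod.ext h.1 h.2⟩

/-- extension by zero -/
noncomputable def io : L2 (G × A) →L[ℝ] L2 (G × (I ⊕ A)) :=
  ContinuousLinearMap.adjoint (cm (emb (G := G) (I := I) (A := A)))

theorem io_eq (f : L2 (G × A)) (p : G × (I ⊕ A)) :
    (io f : G × (I ⊕ A) → ℝ) p = ⟪cm emb (dl p), f⟫ := by
  rw [← inner_dl p (io f)]
  unfold io
  rw [ContinuousLinearMap.adjoint_inner_right]

theorem io_inr (f : L2 (G × A)) (x : G) (α : A) :
    (io (I := I) f : G × (I ⊕ A) → ℝ) (x, Sum.inr α) = f (x, α) := by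
  have h : cm emb (dl ((x, Sum.inr α) : G × (I ⊕ A))) = dl (x, α) := by
    ext q
    rw [cm_apply, dl_apply, dl_apply]
    by_cases hq : q = (x, α)
    · subst hq
      rw [if_pos rfl, if_pos]
      rfl
    · rw [if_neg hq, if_neg]
      intro h
      exact hq (emb.injective (h : emb q = emb (x, α)))
  rw [io_eq, h, inner_dl]

theorem io_inl (f : L2 (G × A)) (x : G) (i : I) :
    (io (I := I) f : G × (I ⊕ A) → ℝ) (x, Sum.inl i) = 0 := by
  have h : cm emb (dl ((x, Sum.inl i) : G × (I ⊕ A))) = 0 := by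
    ext q
    rw [cm_apply, dl_ne]
    · rfl
    · intro h
      have := (Prod.mk.inj h).2
      exact absurd this (by simp)
  rw [io_eq, h, inner_zero_left]

theorem io_inj {f : L2 (G × A)} (h : io (I := I) f = 0) : f = 0 := by
  ext ⟨x, α⟩
  rw [← io_inr (I := I) f x α, h]
  rfl

theorem io_eqv : Eqv (io (G := G) (I := I) (A := A)) := by
  intro g v
  ext ⟨x, j⟩
  rw [lt_apply]
  cases j with
  | inl i => rw [io_inl, io_inl]
  | inr α => rw [io_inr, io_inr, lt_apply]

open Classical in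
/-- restriction to a set of vertices -/
noncomputable def rs (Y : Set G) (z : L2 (G × A)) : L2 (G × A) :=
  ⟨fun p => if p.1 ∈ Y then z p else 0, memL2 (Summable.of_nonneg_of_le (fun p => sq_nonneg _)
    (fun p => by
      show (if p.1 ∈ Y then z p else 0) ^ 2 ≤ z p ^ 2
      split_ifs
      · exact le_rfl
      · rw [zero_pow two_ne_zero]
        exact sq_nonneg _) (summable_sq z))⟩

open Classical in
theorem rs_apply (Y : Set G) (z : L2 (G × A)) (p : G × A) :
    (rs Y z : G × A → ℝ) p = if p.1 ∈ Y then z p else 0 := rfl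

/-- approximation by the restrictions -/
theorem exists_rs (L : Subgroup G) (z : L2 (G × A)) {ε : ℝ} (hε : 0 < ε) :
    ∃ X : Finset G, ‖z - rs ((X : Set G) * (L : Set G)) z‖ < ε := by
  classical
  have hs := summable_sq z
  have h1 := hs.hasSum
  have h2 : ∀ᶠ F : Finset (G × A) in atTop,
      dist (∑ p ∈ F, (z : G × A → ℝ) p ^ 2) (∑' p, (z : G × A → ℝ) p ^ 2) < ε ^ 2 :=
    (Metric.tendsto_nhds.1 h1) (ε ^ 2) (by positivity)
  obtain ⟨F, hF⟩ := h2.exists
  refine ⟨F.image Prod.fst, ?_⟩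
  set Y : Set G := ((F.image Prod.fst : Finset G) : Set G) * (L : Set G) with hY
  have hFY : ∀ p ∈ F, p.1 ∈ Y := fun p hp =>
    ⟨p.1, by
      rw [Finset.mem_coe, Finset.mem_image]
      exact ⟨p, hp, rfl⟩, 1, L.one_mem, mul_one _⟩
  have h3 : HasSum (fun p => if p ∈ F then (z : G × A → ℝ) p ^ 2 else 0)
      (∑ p ∈ F, (z : G × A → ℝ) p ^ 2) := by
    have h4 : HasSum (fun p => if p ∈ F then (z : G × A → ℝ) p ^ 2 else 0)
        (∑ p ∈ F, if p ∈ F then (z : G × A → ℝ) p ^ 2 else 0) :=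
      hasSum_sum_of_ne_finset_zero fun p hp => if_neg hp
    rwa [Finset.sum_congr rfl (fun p hp => if_pos hp)] at h4
  have h4 : ‖z - rs Y z‖ ^ 2 ≤
      (∑' p, (z : G × A → ℝ) p ^ 2) - ∑ p ∈ F, (z : G × A → ℝ) p ^ 2 := by
    rw [norm_sq_eq]
    refine hasSum_le (fun p => ?_) (summable_sq (z - rs Y z)).hasSum (h1.sub h3)
    show ((z : G × A → ℝ) p - (rs Y z : G × A → ℝ) p) ^ 2 ≤ _
    rw [rs_apply]
    by_cases hp : p.1 ∈ Y
    · rw [if_pos hp, sub_self, zero_pow two_ne_zero]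
      by_cases hpF : p ∈ F
      · rw [if_pos hpF, sub_self]
      · rw [if_neg hpF, sub_zero]
        exact sq_nonneg _
    · rw [if_neg hp, if_neg fun h => hp (hFY p h), sub_zero, sub_zero]
  have h5 : ‖z - rs Y z‖ ^ 2 < ε ^ 2 := by
    rw [Real.dist_eq] at hF
    have := neg_abs_le ((∑ p ∈ F, (z : G × A → ℝ) p ^ 2) - ∑' p, (z : G × A → ℝ) p ^ 2)
    linarith
  exact lt_of_pow_lt_pow_left₀ 2 hε.le h5

variable [Fintype I] [Fintype A]

/-- the restrictions to unions of cosets are flows -/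
theorem rs_flow (s : I → G) (a : A → G) (L : Subgroup G) [Finite L]
    (hL : ∀ y, y ∈ L ↔ ∃ α, a α = y) (z : L2 (G × A)) (hz : bd a z = 0) (X : Finset G) :
    io (I := I) (rs ((X : Set G) * (L : Set G)) z) ∈ Cf (Sum.elim s a) := by
  classical
  set Y : Set G := (X : Set G) * (L : Set G) with hY
  have hYf : Y.Finite := X.finite_toSet.mul (Set.toFinite _)
  have hmul : ∀ x, ∀ y ∈ L, x ∈ Y → x * y ∈ Y := by
    rintro _ y hy ⟨x, hx, l, hl, rfl⟩
    exact ⟨x, hx, l * y, L.mul_mem hl hy, (mul_assoc _ _ _).symm⟩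
  have haL : ∀ α, a α ∈ L := fun α => (hL _).2 ⟨α, rfl⟩
  have hiff : ∀ x α, x * (a α)⁻¹ ∈ Y ↔ x ∈ Y := by
    intro x α
    constructor
    · intro h
      have := hmul _ _ (haL α) h
      rwa [inv_mul_cancel_right] at this
    · exact hmul _ _ (L.inv_mem (haL α))
  rw [mem_Cf]
  constructor
  · refine ((hYf.prod (Set.toFinite (Set.univ : Set (I ⊕ A)))).subset ?_)
    rintro ⟨x, j⟩ hx
    refine ⟨?_, trivial⟩
    by_contra hn
    refine hx ?_
    cases j with
    | inl i => exact io_inl _ _ _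
    | inr α =>
      rw [io_inr, rs_apply]
      exact if_neg hn
  · ext ⟨x, u⟩
    rw [bd_apply, Fintype.sum_sum_type]
    have h1 : ∀ i : I, (io (I := I) (rs Y z) : G × (I ⊕ A) → ℝ)
        (x * (Sum.elim s a (Sum.inl i))⁻¹, Sum.inl i) -
        (io (I := I) (rs Y z) : G × (I ⊕ A) → ℝ) (x, Sum.inl i) = 0 := by
      intro i
      rw [io_inl, io_inl, sub_zero]
    have h2 : ∀ α : A, (io (I := I) (rs Y z) : G × (I ⊕ A) → ℝ)
        (x * (Sum.elim s a (Sum.inr α))⁻¹, Sum.inr α) -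
        (io (I := I) (rs Y z) : G × (I ⊕ A) → ℝ) (x, Sum.inr α) =
        if x ∈ Y then (z : G × A → ℝ) (x * (a α)⁻¹, α) - (z : G × A → ℝ) (x, α) else 0 := by
      intro α
      rw [io_inr, io_inr, rs_apply, rs_apply]
      show (if x * (a α)⁻¹ ∈ Y then (z : G × A → ℝ) (x * (a α)⁻¹, α) else 0) -
        (if x ∈ Y then (z : G × A → ℝ) (x, α) else 0) = _
      by_cases hx : x ∈ Y
      · rw [if_pos hx, if_pos hx, if_pos ((hiff x α).2 hx)]
      · rw [if_neg hx, if_neg hx, if_neg fun h => hx ((hiff x α).1 h), sub_zero]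
    rw [Finset.sum_congr rfl (fun i _ => h1 i), Finset.sum_congr rfl (fun α _ => h2 α)]
    rw [Finset.sum_const_zero, zero_add]
    have h3 : ((0 : L2 (G × Unit)) : G × Unit → ℝ) (x, u) = 0 := rfl
    rw [h3]
    by_cases hx : x ∈ Y
    · simp only [if_pos hx]
      rw [← bd_apply a z x u, hz]
      rfl
    · simp only [if_neg hx, Finset.sum_const_zero]

end

theorem pf_LWA (h1 : T_ZDM.{u}) (h2 : T_RNT.{u}) (h3 : T_BDF.{u}) (h4 : T_DMB.{u})
    (_h5 : T_EQA.{u}) : T_LWA.{u} := by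
  intro G _ I A _ _ s a L hfin hL
  have hV : Pool.Agent.H74.BTL.Inv (kr (bd a)) := by
    intro g v hv
    rw [mem_kr] at hv ⊢
    rw [(h3 G A a).1 g v, hv, map_zero]
  have hR := h2 G A (I ⊕ A) (io (G := G) (I := I) (A := A)) (kr (bd a)) io_eqv hV
  have hker : kr (io (G := G) (I := I) (A := A)) = ⊥ := by
    rw [eq_bot_iff]
    intro f hf
    rw [mem_kr] at hf
    exact (Submodule.mem_bot ℝ).2 (io_inj hf)
  have hbot : dm (⊥ : Submodule ℝ (L2 (G × A))) = 0 := by
    have h6 := (h4 G A).2.2.2 ⊥ ⊥ (fun v hv w _ => by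
      rw [Submodule.mem_bot] at hv
      rw [hv, inner_zero_left])
    rw [sup_bot_eq] at h6
    linarith
  rw [hker, inf_bot_eq, hbot, zero_add] at hR
  have hle : mp (io (G := G) (I := I) (A := A)) (kr (bd a)) ≤
      (Cf (Sum.elim s a)).topologicalClosure ⊓ kr (pin A) := by
    intro w hw
    obtain ⟨z, hz, rfl⟩ := mem_mp.1 hw
    rw [mem_kr] at hz
    refine ⟨?_, ?_⟩
    · have hz2 : z ∈ closure {w : L2 (G × A) | io (I := I) w ∈ Cf (Sum.elim s a)} := by
        rw [Metric.mem_closure_iff]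
        intro ε hε
        obtain ⟨X, hX⟩ := exists_rs L z hε
        exact ⟨_, rs_flow s a L hL z hz X, by rwa [dist_eq_norm]⟩
      have h7 : io (I := I) z ∈ closure (io (I := I) ''
          {w : L2 (G × A) | io (I := I) w ∈ Cf (Sum.elim s a)}) :=
        image_closure_subset_closure_image (io (I := I)).continuous ⟨z, hz2, rfl⟩
      have h8 : io (I := I) '' {w : L2 (G × A) | io (I := I) w ∈ Cf (Sum.elim s a)} ⊆
          (Cf (Sum.elim s a) : Set (L2 (G × (I ⊕ A)))) := by
        rintro _ ⟨w, hw, rfl⟩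
        exact hw
      exact closure_mono h8 h7
    · refine mem_kr.2 ?_
      ext ⟨x, i⟩
      rw [pin_apply, io_inl]
      rfl
  have h9 := (h4 G (I ⊕ A)).1 _ _ (hle.trans (Submodule.le_topologicalClosure _))
  have h10 := (h1 G A a).1
  linarith

end Pool.Agent.H13.BTL
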