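import Pool.Agent.H74.BTL.Targets

/-!
# Row ZDM of the board btl_modules: the dimension of the space of square summable flows
(MP_60ff71_an)
-/

set_option autoImplicit false

open scoped ENNReal RealInnerProductSpace
open Filter Topology

universe u

namespace Pool.Agent.H13.BTL

open Pool.Agent.H74.BTL

/-- the adjoint of the boundary is injective on an infinite group -/
theorem kr_adjoint_bd (h2 : T_BDF.{u}) (G : Type u) [Group G] [Infinite G] (I : Type) [Fintype I]
    (s : I → G) (hs : Subgroup.closure (Set.range s) = ⊤) :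
    kr (ContinuousLinearMap.adjoint (bd s)) = ⊥ := by
  obtain ⟨-, -, -, -, hadj⟩ := h2 G I s
  rw [eq_bot_iff]
  intro f hf
  rw [mem_kr] at hf
  have h3 : ∀ (x : G) (i : I), (f : G × Unit → ℝ) (x * s i, ()) = f (x, ()) := by
    intro x i
    have h4 := hadj f x i
    rw [hf] at h4
    have h5 : ((0 : L2 (G × I)) : G × I → ℝ) (x, i) = 0 := rfl
    rw [h5] at h4
    linarith
  let S : Subgroup G :=
    { carrier := {g | ∀ x : G, (f : G × Unit → ℝ) (x * g, ()) = f (x, ())}
      one_mem' := fun x => by rw [mul_one]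
      mul_mem' := fun {a b} ha hb x => by
        rw [← mul_assoc]
        exact (hb (x * a)).trans (ha x)
      inv_mem' := fun {a} ha x => by
        have h6 := ha (x * a⁻¹)
        rw [inv_mul_cancel_right] at h6
        exact h6.symm }
  have hS : S = ⊤ := by
    rw [eq_top_iff, ← hs, Subgroup.closure_le]
    rintro _ ⟨i, rfl⟩ x
    exact h3 x i
  have hc : ∀ p : G × Unit, (f : G × Unit → ℝ) p = f ((1 : G), ()) := by
    rintro ⟨x, ⟨⟩⟩
    have h6 : x ∈ S := by
      rw [hS]
      trivial
    have h7 := h6 1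
    rwa [one_mul] at h7
  have hsum := summable_sq f
  have h8 : (fun p : G × Unit => (f : G × Unit → ℝ) p ^ 2) =
      fun _ => (f : G × Unit → ℝ) ((1 : G), ()) ^ 2 := by
    funext p
    rw [hc p]
  rw [h8, summable_const_iff] at hsum
  have h9 : (f : G × Unit → ℝ) ((1 : G), ()) = 0 := by
    exact pow_eq_zero_iff (two_ne_zero) |>.1 hsum
  rw [Submodule.mem_bot]
  ext p
  rw [hc p, h9]
  rfl

theorem pf_ZDM (h1 : T_RNK.{u}) (h2 : T_BDF.{u}) (h3 : T_DMB.{u}) : T_ZDM.{u} := by
  intro G _ I _ s
  have hE : Eqv (bd s) := (h2 G I s).1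
  have hr := h1 G I Unit (bd s) hE
  have hcard : (Fintype.card Unit : ℝ) = 1 := by simp
  rw [hcard] at hr
  obtain ⟨-, hD2, -, hD4⟩ := h3 G Unit
  refine ⟨?_, fun hinf hs => ?_⟩
  · have h4 := (hD2 (kr (ContinuousLinearMap.adjoint (bd s)))).1
    linarith
  · have h5 := kr_adjoint_bd h2 G I s hs
    have h6 := hD4 ⊥ ⊥ (fun v hv w _ => by
      rw [Submodule.mem_bot] at hv
      rw [hv, inner_zero_left])
    rw [sup_bot_eq] at h6
    rw [h5] at hr
    linarith

end Pool.Agent.H13.BTL
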